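import Mathlib
import Pool.Agent.Helper22_LLG.Stmt

/-!
# CGP: the linear arboricity conjecture for girth at least a constant; part 1 (constant degree picks)

Written proofs: `/team-store/PLAN_CGP.md`. Module `XXX` proves `XxxStmt`.
Conventions of `Pool.Agent.LAG` and `Pool.Agent.LLG` (`bd`, `ins`, `Sparse`, `cc`, `dbl`, `bas`).
-/

set_option autoImplicit false

namespace Pool.Agent.CGP

open SimpleGraph Pool.Agent.LAG Pool.Agent.LLG

/-! ### Part A: counting -/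

/-- Every vertex has at most `3 k / 5` neighbours on the other side of `C`. -/
def Core {W : Type} (Γ : SimpleGraph W) (k : ℕ) (C : Set W) : Prop :=
  (∀ w ∈ C, 5 * {v | Γ.Adj w v ∧ v ∉ C}.ncard ≤ 3 * k) ∧
    ∀ w ∉ C, 5 * {v | Γ.Adj w v ∧ v ∈ C}.ncard ≤ 3 * k

/-- Small sets span very few edges. -/
def Thin {W : Type} (Γ : SimpleGraph W) (κ m : ℕ) : Prop :=
  ∀ K : Set W, K.ncard < m → ins Γ K ≤ κ * K.ncard

/-- The edges of `Γ` inside `C` and the pairs of `L`. -/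
def lnk {W : Type} (Γ : SimpleGraph W) (C : Set W) (L : Set (Sym2 W)) : SimpleGraph W where
  Adj a b := a ≠ b ∧ ((a ∈ C ∧ b ∈ C ∧ Γ.Adj a b) ∨ s(a, b) ∈ L)
  symm := ⟨fun a b h => ⟨h.1.symm, h.2.elim (fun h => Or.inl ⟨h.2.1, h.1, h.2.2.symm⟩)
    (fun h => Or.inr (by rw [Sym2.eq_swap]; exact h))⟩⟩
  loopless := ⟨fun _ h => h.1 rfl⟩

/-- `nb w` enumerates the neighbours of `w`. -/
def Enum {W : Type} (Γ : SimpleGraph W) {k : ℕ} (nb : W → Fin k → W) : Prop :=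
  (∀ w, Function.Injective (nb w)) ∧ ∀ w v, Γ.Adj w v ↔ ∃ i, nb w i = v

/-- The picks do not cross `C`. -/
def Insd {W : Type} {k s : ℕ} (nb : W → Fin k → W) (C : Set W) (p : W → Fin s → Fin k) : Prop :=
  ∀ w i, w ∈ C ↔ nb w (p w i) ∈ C

/-- The graph of the picks. -/
def pkg {W : Type} {k s : ℕ} (nb : W → Fin k → W) (p : W → Fin s → Fin k) : SimpleGraph W where
  Adj a b := a ≠ b ∧ ((∃ i, nb a (p a i) = b) ∨ ∃ i, nb b (p b i) = a)
  symm := ⟨fun _ _ h => ⟨h.1.symm, h.2.symm⟩⟩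
  loopless := ⟨fun _ h => h.1 rfl⟩

open Classical in
/-- The configurations of picks which do not cross `C`. -/
noncomputable def insd {W : Type} [Fintype W] {k : ℕ} (s : ℕ) (nb : W → Fin k → W) (C : Set W) :
    Finset (W → Fin s → Fin k) := Finset.univ.filter fun p => Insd nb C p

/-- CSET: the number of connected sets. -/
def CsetStmt : Prop := ∀ (W : Type) [Fintype W] [DecidableEq W] (Γ : SimpleGraph W) (k n : ℕ)
    (v : W), 1 ≤ k → 1 ≤ n → (∀ v, (Γ.neighborSet v).ncard ≤ k) →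
    Nat.card {K : Finset W // v ∈ K ∧ K.card = n ∧ (Γ.induce (K : Set W)).Connected} ≤
      k ^ (2 * n)

/-- PCK: all picks of a small set stay in it with small probability. -/
def PckStmt : Prop := ∀ (W : Type) [Fintype W] [DecidableEq W] (Γ : SimpleGraph W)
    (k s κ m : ℕ) (nb : W → Fin k → W), 1 ≤ k → Enum Γ nb → Thin Γ κ m →
    ∀ C K : Finset W, Core Γ k (C : Set W) → K ⊆ C → K.card < m →
    ((insd s nb (C : Set W)).filter fun p => ∀ w ∈ K, ∀ i, nb w (p w i) ∈ K).card ≤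
      (5 * (κ : ℝ) / (2 * k)) ^ (s * K.card) * ((insd s nb (C : Set W)).card : ℝ)

/-- PCL: the average number of clusters of the picks in a core. -/
def PclStmt : Prop := ∀ (W : Type) [Fintype W] [DecidableEq W] (Γ : SimpleGraph W)
    (k s κ m : ℕ) (nb : W → Fin k → W), 1 ≤ k → 1 ≤ m → Enum Γ nb → Thin Γ κ m →
    (k : ℝ) ^ 2 * (5 * (κ : ℝ) / (2 * k)) ^ s ≤ 1 / (2 * m) →
    ∀ C : Finset W, Core Γ k (C : Set W) →
    ∑ p ∈ insd s nb (C : Set W), (cc ((pkg nb p).induce (C : Set W)) : ℝ) ≤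
      2 * (C.card : ℝ) / m * ((insd s nb (C : Set W)).card : ℝ)

/-- PIN: no pick crosses a core, probability. -/
def PinStmt : Prop := ∀ (W : Type) [Fintype W] [DecidableEq W] (Γ : SimpleGraph W)
    (k s : ℕ) (nb : W → Fin k → W), 1 ≤ k → Enum Γ nb →
    ∀ C : Finset W, Core Γ k (C : Set W) →
    Real.exp (-(16 / 5 * (s : ℝ) * (bd Γ (C : Set W) : ℝ) / k)) *
      (Fintype.card (W → Fin s → Fin k) : ℝ) ≤ ((insd s nb (C : Set W)).card : ℝ)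

/-- A core `C`, extras `E` and links `L` which connect everything. Every link has an end in `E`. -/
def CertE {W : Type} [DecidableEq W] (Γ : SimpleGraph W) (k : ℕ) (C E : Finset W)
    (L : Finset (Sym2 W)) : Prop :=
  Disjoint C E ∧ Core Γ k (C : Set W) ∧
  (∀ l ∈ L, l ∈ Γ.edgeSet ∧ (∀ w ∈ l, w ∈ C ∪ E) ∧ ∃ w ∈ l, w ∈ E) ∧
  ∀ v ∈ C ∪ E, ∀ w ∈ C ∪ E, (lnk Γ (C : Set W) (L : Set (Sym2 W))).Reachable v w

/-- The weight of CE. -/
noncomputable def wtE {W : Type} (Γ : SimpleGraph W) (k s m : ℕ) (C E : Finset W)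
    (L : Finset (Sym2 W)) : ℝ :=
  Real.exp (-((16 / 5 * (s : ℝ) + 4) * (bd Γ (C : Set W) : ℝ) / k + 4 * (E.card : ℝ) +
    2 * Real.log k * (C.card : ℝ) / m)) * ((k : ℝ) ^ L.card)⁻¹

/-- CE: the weighted number of connected sets which consist of a core and of extras. -/
def CeStmt : Prop := ∀ (W : Type) [Fintype W] [DecidableEq W] (Γ : SimpleGraph W)
    (k s κ m : ℕ), 2 ≤ k → 1 ≤ m → (∀ v, (Γ.neighborSet v).ncard = k) → Thin Γ κ m →
    (k : ℝ) ^ 2 * (5 * (κ : ℝ) / (2 * k)) ^ s ≤ 1 / (2 * m) →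
    ∀ (v : W) (𝒞 : Finset (Finset W × Finset W × Finset (Sym2 W))),
    (∀ c ∈ 𝒞, v ∈ c.1 ∪ c.2.1 ∧ CertE Γ k c.1 c.2.1 c.2.2) →
    ∑ c ∈ 𝒞, wtE Γ k s m c.1 c.2.1 c.2.2 ≤ 2

/-- Holes `H` in `C` with links `F`: every hole is linked to the outside or to a root in `R`. -/
def CertH {W : Type} [DecidableEq W] (Γ : SimpleGraph W) (C H : Finset W)
    (F : Finset (Sym2 W)) (R : Finset W) : Prop :=
  H ⊆ C ∧ R ⊆ H ∧ (∀ l ∈ F, l ∈ Γ.edgeSet ∧ (∃ w ∈ l, w ∈ H) ∧ ∀ w ∈ l, w ∈ H ∨ w ∉ C) ∧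
  ∀ w ∈ H, ∃ w', (w' ∈ R ∨ w' ∉ C) ∧ (lnk Γ ∅ (F : Set (Sym2 W))).Reachable w' w

/-- The weight of HC. -/
noncomputable def wtH {W : Type} (Γ : SimpleGraph W) (k M : ℕ) (C H : Finset W)
    (F : Finset (Sym2 W)) (R : Finset W) : ℝ :=
  Real.exp (-(2 * (bd Γ (C : Set W) : ℝ) / k + 2 * (H.card : ℝ) + 2 * (C.card : ℝ) / M)) *
    ((k : ℝ) ^ F.card * (M : ℝ) ^ R.card)⁻¹

/-- HC: the weighted number of systems of holes. -/
def HcStmt : Prop := ∀ (W : Type) [Fintype W] [DecidableEq W] (Γ : SimpleGraph W)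
    (k M : ℕ), 2 ≤ k → 2 ≤ M → (∀ v, (Γ.neighborSet v).ncard ≤ k) →
    ∀ (C : Finset W) (ℋ : Finset (Finset W × Finset (Sym2 W) × Finset W)),
    (∀ h ∈ ℋ, CertH Γ C h.1 h.2.1 h.2.2) →
    ∑ h ∈ ℋ, wtH Γ k M C h.1 h.2.1 h.2.2 ≤ 1

/-! ### Part B: violators -/

/-- Data of a violator: core, extras, holes, links, marked links of the extras, links of the holes,
roots of the holes. -/
abbrev VC (W : Type) : Type := Finset W × Finset W × Finset W × Finset (Sym2 W) ×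
  Finset (Sym2 W) × Finset (Sym2 W) × Finset W

namespace VC
variable {W : Type} (d : VC W)
/-- core -/
abbrev C : Finset W := d.1
/-- extras -/
abbrev E : Finset W := d.2.1
/-- holes -/
abbrev H : Finset W := d.2.2.1
/-- links -/
abbrev L : Finset (Sym2 W) := d.2.2.2.1
/-- links of the extras which are arcs of the support -/
abbrev FE : Finset (Sym2 W) := d.2.2.2.2.1
/-- links of the holes (arcs of the support) -/
abbrev FH : Finset (Sym2 W) := d.2.2.2.2.2.1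
/-- roots -/
abbrev R : Finset W := d.2.2.2.2.2.2
/-- the violator -/
def D [DecidableEq W] : Finset W := (d.C ∪ d.E) \ d.H
end VC

/-- The conditions on the data. -/
def VCok {W : Type} [DecidableEq W] (Γ : SimpleGraph W) (k m : ℕ) (d : VC W) : Prop :=
  CertE Γ k d.C d.E d.L ∧ d.FE ⊆ d.L ∧ CertH Γ d.C d.H d.FH d.R ∧
  m * d.L.card ≤ m * d.FE.card + (d.C ∪ d.E).card ∧ m * d.R.card ≤ d.H.card ∧
  d.FE.card ≤ d.E.card ∧ d.FH.card ≤ d.H.card ∧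
  k * (d.E.card + d.H.card) ≤ 5 * bd Γ (d.D : Set W) ∧
  bd Γ (d.C : Set W) ≤ bd Γ (d.D : Set W) ∧ m ≤ d.D.card

/-- The boundary edges of `D` whose end in `D` is in `Sd`. -/
noncomputable def ob {W : Type} (Γ : SimpleGraph W) (Sd D : Set W) : ℕ :=
  {e : W × W | e.1 ∈ D ∧ e.1 ∈ Sd ∧ e.2 ∉ D ∧ Γ.Adj e.1 e.2}.ncard

/-- The weight of a violator. -/
noncomputable def xH {W : Type} [DecidableEq W] (Γ : SimpleGraph W) (Sd : Set W)
    (k D0 bl : ℕ) (d : VC W) : ℝ :=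
  (11 * (D0 : ℝ) / k) ^ (d.FE.card + d.FH.card) *
    Real.exp (-(4 / 5 * D0 * (ob Γ Sd (d.D : Set W) : ℝ) / k +
      2 / 5 * (((d.D : Set W) ∩ Sd).ncard : ℝ) / bl))

/-- The numerical conditions of DSUM. -/
def NumD (k s κ m bl D0 : ℕ) : Prop :=
  16 ≤ k ∧ k ≤ m ∧ 1 ≤ bl ∧ 1 ≤ D0 ∧ 30 * (bl : ℝ) * (Real.log k + 1) ≤ m ∧
  10 * Real.log (11 * D0) + 7 * (s : ℝ) + 100 ≤ 4 / 5 * D0 ∧
  (k : ℝ) ^ 2 * (5 * (κ : ℝ) / (2 * k)) ^ s ≤ 1 / (2 * m)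

/-- DSUM: the weighted number of violators at a vertex. -/
def DsumStmt : Prop := ∀ (W : Type) [Fintype W] [DecidableEq W] (Γ : SimpleGraph W) (Sd : Set W)
    (k s κ m bl D0 : ℕ), NumD k s κ m bl D0 → (∀ v, (Γ.neighborSet v).ncard = k) →
    Thin Γ κ m → ∀ (v : W) (𝒟 : Finset (VC W)),
    (∀ d ∈ 𝒟, v ∈ d.C ∪ d.E ∧ VCok Γ k m d ∧ bd Γ (d.D : Set W) ≤ 2 * ob Γ Sd (d.D : Set W) ∧
      d.D.card ≤ 2 * ((d.D : Set W) ∩ Sd).ncard) →
    ∑ d ∈ 𝒟, xH Γ Sd k D0 bl d ≤ Real.exp (-(m : ℝ) / (20 * bl))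

/-- FOR: a spanning forest of a set `B`; every tree is attached to `T` or has a root. -/
def ForStmt : Prop := ∀ (W : Type) [Fintype W] [DecidableEq W] (G : SimpleGraph W)
    (B T : Finset W) (m : ℕ), Disjoint B T →
    (∀ Q : Finset W, Q ⊆ B → Q.Nonempty → (∀ a ∈ Q, ∀ b, G.Adj a b → (b ∈ B → b ∈ Q) ∧ b ∉ T) →
      m ≤ Q.card) →
    ∃ (F : Finset (Sym2 W)) (R : Finset W), R ⊆ B ∧ m * R.card ≤ B.card ∧
      F.card + R.card = B.card ∧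
      (∀ l ∈ F, l ∈ G.edgeSet ∧ (∃ w ∈ l, w ∈ B) ∧ ∀ w ∈ l, w ∈ B ∪ T) ∧
      (∀ w ∈ B, ∃ w', (w' ∈ R ∨ w' ∈ T) ∧ (lnk G ∅ (F : Set (Sym2 W))).Reachable w' w) ∧
      ∀ Q : Finset W, Q ⊆ B → Q.Nonempty →
        (∀ a ∈ Q, ∀ b, (lnk G ∅ (F : Set (Sym2 W))).Adj a b → b ∈ Q) → m ≤ Q.card

/-- LNK: links which connect a connected set `U`. -/
def LnkStmt : Prop := ∀ (W : Type) [Fintype W] [DecidableEq W] (Γ G1 : SimpleGraph W)
    (U : Finset W) (m : ℕ), G1 ≤ Γ → (Γ.induce (U : Set W)).Connected →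
    (∀ Q : Finset W, Q ⊆ U → Q.Nonempty → (∀ a ∈ Q, ∀ b ∈ U, G1.Adj a b → b ∈ Q) → m ≤ Q.card) →
    ∃ L0 : Finset (Sym2 W), m * L0.card ≤ U.card ∧
      (∀ l ∈ L0, l ∈ Γ.edgeSet ∧ (∀ w ∈ l, w ∈ U) ∧ l ∉ G1.edgeSet) ∧
      ∀ v ∈ U, ∀ w ∈ U, (lnk G1 (U : Set W) (L0 : Set (Sym2 W))).Reachable v w

/-- CORM: the core of a set, as a minimiser; `P` runs over the unions of components. -/
def CormStmt : Prop := ∀ (W : Type) [Fintype W] [DecidableEq W] (Γ : SimpleGraph W) (k : ℕ)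
    (X : Finset W), (∀ v, (Γ.neighborSet v).ncard = k) →
    ∃ Y : Finset W, Core Γ k (Y : Set W) ∧
      ∀ P : Finset W, (∀ a ∈ P, ∀ b ∈ X ∪ Y, Γ.Adj a b → b ∈ P) → P ⊆ X ∪ Y →
        Core Γ k ((Y ∩ P : Finset W) : Set W) ∧
        5 * bd Γ ((Y ∩ P : Finset W) : Set W) + k * ((X ∩ P) \ Y).card +
          k * ((Y ∩ P) \ X).card ≤ 5 * bd Γ ((X ∩ P : Finset W) : Set W)

/-- MAXD: a set of tails of maximal deficiency. `N A` is the set of the heads of the arcs from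
`A`. -/
def MaxdStmt : Prop := ∀ (V : Type) [Fintype V] (g : V → V → Prop) (Z A0 : Set V),
    (∀ x ∈ A0, x ∉ Z) → {y | ∃ x ∈ A0, g x y}.ncard < A0.ncard →
    ∃ A : Set V, {y | ∃ x ∈ A, g x y}.ncard < (A \ Z).ncard ∧
      (∀ X : Set V, Disjoint X A → X.Nonempty →
        (X \ Z).ncard < {y | (∃ x ∈ X, g x y) ∧ ¬ ∃ x ∈ A, g x y}.ncard) ∧
      ∀ Y : Set V, (∀ y ∈ Y, ∃ x ∈ A, g x y) →
        Y.ncard ≤ {x | x ∈ A ∧ x ∉ Z ∧ ∃ y ∈ Y, g x y}.ncard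

/-- VIO: the structure of the violators of Hall's condition (tails). -/
def VioStmt : Prop := ∀ (V : Type) [Fintype V] [DecidableEq V] (O g : V → V → Prop) (Z : Set V)
    (k m m0 D0 : ℕ), (∀ x y, g x y → O x y) →
    (∀ v, {w | O v w}.ncard = k ∧ {w | O w v}.ncard = k) →
    1 ≤ k → 2 ≤ D0 → 1 ≤ m → m ≤ m0 → Sparse (dbl O) k m → Sparse (dbl g) D0 m0 →
    (∀ v, D0 ≤ {w | g v w}.ncard ∧ D0 ≤ {w | g w v}.ncard) →
    (∀ y, ∀ x ∈ Z, ∀ x' ∈ Z, g x y → g x' y → x = x') →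
    ∀ A0 : Set V, (∀ x ∈ A0, x ∉ Z) → {y | ∃ x ∈ A0, g x y}.ncard < A0.ncard →
    ∃ d : VC (V ⊕ V), VCok (dbl O) k m d ∧
      (∀ l ∈ d.FE ∪ d.FH, l ∈ (dbl g).edgeSet) ∧
      (∀ x y, Sum.inl x ∈ d.D → g x y → Sum.inr y ∈ d.D) ∧
      {y | Sum.inr y ∈ d.D}.ncard < {x | Sum.inl x ∈ d.D ∧ x ∉ Z}.ncard

/-! ### Part C: probability -/

/-- Choice functions. -/
abbrev Chf (V : Type) : Type := {h : Finset V → V // ∀ X : Finset V, X.Nonempty → h X ∈ X}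

/-- The coordinates: arcs, (node, fine colour), vertices. -/
abbrev Crd (V : Type) (c D0 : ℕ) : Type :=
  (V × V) ⊕ (((V ⊕ V) × (Fin c × Fin D0)) ⊕ V)

/-- The alphabet: fine colour, choice function, label. -/
abbrev Alp (V : Type) (c D0 bl : ℕ) : Type := (Fin c × Fin D0) × (Chf V × Fin bl)

section
variable {V : Type} [Fintype V] {c D0 bl : ℕ}

/-- The fine colour of an arc. -/
def colr (ω : Crd V c D0 → Alp V c D0 bl) (x y : V) : Fin c × Fin D0 := (ω (Sum.inl (x, y))).1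

open Classical in
/-- The arcs of fine colour `f` at a node (given by their other ends). -/
noncomputable def cls (O : V → V → Prop) (ω : Crd V c D0 → Alp V c D0 bl) (w : V ⊕ V)
    (f : Fin c × Fin D0) : Finset V :=
  match w with
  | Sum.inl x => Finset.univ.filter fun y => O x y ∧ colr ω x y = f
  | Sum.inr y => Finset.univ.filter fun x => O x y ∧ colr ω x y = f

/-- The pick of a node in a fine colour. -/
noncomputable def pick (O : V → V → Prop) (ω : Crd V c D0 → Alp V c D0 bl) (w : V ⊕ V)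
    (f : Fin c × Fin D0) : V := (ω (Sum.inr (Sum.inl (w, f)))).2.1.1 (cls O ω w f)

/-- The support of the coarse colour `i`: the arcs picked by one of their ends. -/
def supp (O : V → V → Prop) (ω : Crd V c D0 → Alp V c D0 bl) (i : Fin c) (x y : V) : Prop :=
  O x y ∧ (colr ω x y).1 = i ∧
    (pick O ω (Sum.inl x) (colr ω x y) = y ∨ pick O ω (Sum.inr y) (colr ω x y) = x)

/-- The label of a vertex. -/
def labl (ω : Crd V c D0 → Alp V c D0 bl) (v : V) : Fin bl := (ω (Sum.inr (Sum.inr v))).2.2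

/-- All fine classes at the node `w` have about the expected size `k / (c D0)`. -/
def Good1 (O : V → V → Prop) (k : ℕ) (ω : Crd V c D0 → Alp V c D0 bl) (w : V ⊕ V) : Prop :=
  ∀ f : Fin c × Fin D0, k ≤ 2 * (c * D0) * (cls O ω w f).card ∧
    c * D0 * (cls O ω w f).card ≤ 2 * k

end

/-- STAR: the classes have about the expected size. -/
def StarStmt : Prop := ∀ (V : Type) [Fintype V] [DecidableEq V] [Nonempty V] (O : V → V → Prop)
    (k c D0 bl : ℕ), 1 ≤ c → 1 ≤ D0 → 1 ≤ bl →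
    (∀ v, {w | O v w}.ncard = k ∧ {w | O w v}.ncard = k) →
    ∀ (w : V ⊕ V) (f : Fin c × Fin D0),
    ({ω : Crd V c D0 → Alp V c D0 bl | ¬ (k ≤ 2 * (c * D0) * (cls O ω w f).card ∧
      c * D0 * (cls O ω w f).card ≤ 2 * k)}.ncard : ℝ) ≤
      2 * Real.exp (-(k : ℝ) / (8 * (c * D0))) *
        (Nat.card (Crd V c D0 → Alp V c D0 bl) : ℝ)

/-- PB: the probability that given arcs `F` (with given coarse colours) are in the supports, that no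
arc of `B` is in the support of `i`, and that few vertices of `Λ` have the label `cd`. -/
def PbStmt : Prop := ∀ (V : Type) [Fintype V] [DecidableEq V] [Nonempty V] (O : V → V → Prop)
    (k c D0 bl : ℕ), 1 ≤ c → 1 ≤ D0 → 1 ≤ bl → 50 * (c * D0) ≤ k →
    (∀ v, {w | O v w}.ncard = k ∧ {w | O w v}.ncard = k) →
    ∀ (F : Finset ((V × V) × Fin c)) (B : Finset (V × V)) (i : Fin c) (Λ : Finset V)
      (cd : Fin bl) (u : ℝ),
    (∀ p ∈ F, O p.1.1 p.1.2 ∧ p.1 ∉ B) → (∀ p ∈ F, ∀ p' ∈ F, p.1 = p'.1 → p = p') →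
    (∀ e ∈ B, O e.1 e.2) →
    ({ω : Crd V c D0 → Alp V c D0 bl |
      (∀ p ∈ F, Good1 O k ω (Sum.inl p.1.1) ∧ Good1 O k ω (Sum.inr p.1.2)) ∧
      (∀ e ∈ B, Good1 O k ω (Sum.inl e.1) ∧ Good1 O k ω (Sum.inr e.2)) ∧
      (∀ p ∈ F, supp O ω p.2 p.1.1 p.1.2) ∧ (∀ e ∈ B, ¬ supp O ω i e.1 e.2) ∧
      ((Λ.filter fun v => labl ω v = cd).card : ℝ) ≤ u}.ncard : ℝ) ≤
      (11 * (D0 : ℝ) / k) ^ F.card *
        Real.exp (-(99 / 100 * D0 * (B.card : ℝ) / k) + u - 3 / 5 * (Λ.card : ℝ) / bl) *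
        (Nat.card (Crd V c D0 → Alp V c D0 bl) : ℝ)

/-- The numbers `τ` of RLP (arcs, picks, labels). `c = 2 T`. -/
noncomputable def ta (k c D0 bl m : ℕ) (η : ℝ) : ℝ :=
  2 * (8 * (c : ℝ) * D0 * Real.exp (-(k : ℝ) / (8 * (c * D0))) + 4 * η +
    4 * c * (k + 1) * Real.exp (-(m : ℝ) / (20 * bl)))

/-- see `ta` -/
noncomputable def tp (k c bl m : ℕ) (η : ℝ) : ℝ :=
  2 * (2 * η + 2 * c * (k + 1) * Real.exp (-(m : ℝ) / (20 * bl)))

/-- see `ta` -/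
noncomputable def tl (c bl m n1 : ℕ) : ℝ :=
  32 * n1 * (c : ℝ) ^ 2 / (bl : ℝ) ^ 2 + 4 * c * Real.exp (-(m : ℝ) / (20 * bl))

/-- The numerical conditions of RLP (`c` coarse colours). -/
def NumP (k c D0 bl m s κ q n1 lm : ℕ) (η : ℝ) : Prop :=
  NumD k s κ m bl D0 ∧ 50 * (c * D0) ≤ k ∧ 20 ≤ D0 ∧ 20 ≤ k ∧ 2 ≤ c ∧ 1 ≤ lm ∧ 0 ≤ η ∧
  4 * c ≤ bl ∧ 64 * q ≤ k ^ 2 ∧ 36 * q ≤ bl ∧ 4 * η ≤ 1 ∧
  8 * Real.exp (-(k : ℝ) / (8 * (c * D0))) ≤ 1 ∧
  4 * (lm : ℝ) * (k * ta k c D0 bl m η + c * D0 * tp k c bl m η) ≤ 1 ∧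
  30 * (k : ℝ) * (k * ta k c D0 bl m η + c * D0 * tp k c bl m η) ≤ D0 ∧
  8 * (bl : ℝ) * tl c bl m n1 ≤ 1

/-- RLP: the supports of the `2 T` colours and the sinks of one round (host `t` = the colours `i`
with `i / 2 = t`). Label `(i, true)`: sink (tail), label `(i, false)`: sink (head). The event `j`
is bad if all arcs of `ev j` are in the supports of the hosts `hs j`. -/
def RlpStmt : Prop := ∀ (V : Type) [Fintype V] (O : V → V → Prop)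
    (k T D0 bl m m0 s κ q n1 lm : ℕ) (η : ℝ) (al : Set V) (cf : V → V → Prop) (J : Type)
    [Fintype J] (ev : J → Finset (V × V)) (hs : J → Finset ℕ), 1 ≤ T →
    (∀ x y, O x y → ¬ O y x) →
    (∀ v, {w | O v w}.ncard = k ∧ {w | O w v}.ncard = k) →
    Sparse (dbl O) k m → Thin (dbl O) κ m → m ≤ m0 →
    (∀ U : Set (V ⊕ V), k ^ 2 * {u | u ∈ U ∧ bas u ∉ al}.ncard ≤
      4 * q * U.ncard + 3 * k * q * bd (dbl O) U) →
    (∀ x y, cf x y → cf y x) → (∀ v, {x | cf x v}.ncard ≤ n1) →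
    (∀ x x' y, O x y → O x' y → cf x x') → (∀ x y y', O x y → O x y' → cf y y') →
    (∀ j, (∀ e ∈ ev j, O e.1 e.2) ∧ (ev j).card ≤ lm ∧ 1 ≤ (ev j).card ∧ ∀ t ∈ hs j, t < T) →
    (∀ v, ∀ J' : Finset J, (∀ j ∈ J', ∃ e ∈ ev j, e.1 = v ∨ e.2 = v) →
      ∑ j ∈ J', (22 * ((hs j).card : ℝ) * D0 / k) ^ (ev j).card ≤ η) →
    (∀ t < T, ∀ g : V → V → Prop, (∀ x y, g x y → O x y) →
      (∀ j, hs j = {t} → ¬ ∀ e ∈ ev j, g e.1 e.2) → Sparse (dbl g) D0 m0) →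
    NumP k (2 * T) D0 bl m s κ q n1 lm η →
    ∃ (G : Fin (2 * T) → V → V → Prop) (lab : V → Option (Fin (2 * T) × Bool)),
      (∀ i x y, G i x y → O x y) ∧ (∀ i i' x y, G i x y → G i' x y → i = i') ∧
      (∀ v, lab v ≠ none → v ∈ al) ∧
      (∀ u v, u ≠ v → cf u v → lab u = none ∨ lab v = none) ∧
      (∀ j, ¬ ∀ e ∈ ev j, ∃ i, i.val / 2 ∈ hs j ∧ G i e.1 e.2) ∧
      (∀ (i : Fin (2 * T)) (A : Set V), (∀ x ∈ A, lab x ≠ some (i, true)) →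
        A.ncard ≤ {y | ∃ x ∈ A, G i x y}.ncard) ∧
      (∀ (i : Fin (2 * T)) (A : Set V), (∀ y ∈ A, lab y ≠ some (i, false)) →
        A.ncard ≤ {x | ∃ y ∈ A, G i x y}.ncard)

end Pool.Agent.CGP
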